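import Pool.Agent.W155.SD.CtrEdge
import Pool.Agent.W390.SD.P.deg
import Pool.Agent.W390.SD.P.dvd
import Pool.Agent.W390.SD.P.interp

/-! Reduction for MP_7f2998_co (helper146): the part (A2). -/

set_option autoImplicit false
set_option linter.unusedSectionVars false

namespace Pool.Agent.W155.SD

open Finset MvPolynomial Pool.Agent.W390.SD Pool.Agent.W146.SD

variable {V : Type} [Fintype V] [DecidableEq V]

theorem degree_PP' {A : Gr V} (hA : IsGr A) (w : V) :
    degreeOf w (PP A) ≤ (nbr A w).card := by
  unfold PP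
  refine (degreeOf_prod_le _ _ _).trans ?_
  refine (Finset.sum_le_sum fun e _ => Pool.Agent.W390.SD.Aux_deg.degree_fac w e).trans ?_
  rw [← Finset.sum_filter, Finset.sum_const, smul_eq_mul, mul_one]
  have hsub : (edg A).filter (fun e => w ∈ e) ⊆ (nbr A w).image (fun u => s(w, u)) := by
    intro e he
    rw [Finset.mem_filter] at he
    obtain ⟨h1, h2⟩ := he
    induction e using Sym2.ind with
    | _ a b =>
      rw [mem_edg hA] at h1
      rw [Sym2.mem_iff] at h2
      rw [Finset.mem_image]
      rcases h2 with h | h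
      · subst h
        exact ⟨b, mem_nbr.2 h1, rfl⟩
      · subst h
        refine ⟨a, mem_nbr.2 ?_, Sym2.eq_swap⟩
        rw [hA.symm]
        exact h1
  exact (Finset.card_le_card hsub).trans Finset.card_image_le

theorem degree_pd {w : V} {p : R V} {D : ℕ} (hp : degreeOf w p ≤ D) :
    degreeOf w (pderiv w p) ≤ D - 1 := by
  rw [degreeOf_le_iff]
  intro m hm
  rw [mem_support_iff, coeff_pderiv] at hm
  have h1 : coeff (m + Finsupp.single w 1) p ≠ 0 := by
    intro h
    apply hm
    rw [h]; simp
  have h2 := (degreeOf_le_iff.1 hp) _ (mem_support_iff.2 h1)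
  have h3 : (m + Finsupp.single w 1 : V →₀ ℕ) w = m w + 1 := by simp
  rw [h3] at h2
  omega

theorem exists_good (hI : S_interp) {A : Gr V} (hA : IsGr A) {J : Finset V} {u : V} (hu : u ∈ J)
    (hne : PJ A J ≠ 0) : ∃ v, A u v ≠ 0 ∧ sg u v (PJ A J) ≠ 0 := by
  by_contra hcon
  push Not at hcon
  obtain ⟨d0, d1, d2, d3, d4, d5, d6⟩ := p_dd V
  have e1 : PJ A J = pderiv u (dd (J.erase u) (PP A)) := by
    unfold PJ
    rw [← d1 (J.erase u) u _ (notMem_erase u J), insert_erase hu]
  have hdeg : degreeOf u (PJ A J) ≤ (nbr A u).card - 1 := by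
    rw [e1]
    exact degree_pd ((Pool.Agent.W390.SD.Aux_deg.degree_dd_le p_dd _ u _).trans
      (degree_PP' hA u))
  have hD : 0 < (nbr A u).card := by
    rw [card_pos]
    by_contra h1
    rw [not_nonempty_iff_eq_empty] at h1
    apply hne
    have h2 : ∀ v, A u v = 0 := by
      intro v
      by_contra h3
      have h4 := mem_nbr.2 h3
      rw [h1] at h4
      exact absurd h4 (notMem_empty v)
    rw [e1, ← d2, (free_PP hA h2).1, map_zero]
  refine hne (hI V u (nbr A u) ((nbr A u).card / 2) (PJ A J) ?_ ?_ ?_ ?_ ?_)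
  · exact d3 J u _ hu
  · omega
  · rw [mem_nbr, hA.diag]
    exact fun h => h rfl
  · intro v hv
    exact hcon v (mem_nbr.1 hv)
  · omega

theorem sum_split {u v : V} (huv : u ≠ v) (f : V → ZMod 2) :
    ∑ x, f x = f u + (f v + ∑ x ∈ (univ.erase u).erase v, f x) := by
  rw [← add_sum_erase univ f (mem_univ u), ← add_sum_erase (univ.erase u) f
    (mem_erase.2 ⟨huv.symm, mem_univ v⟩)]

theorem lift_order {A : Gr V} (hA : IsGr A) {J : Finset V} {u v : V}
    (huv : A u v ≠ 0) {σ' : V → ℤ} (hσ' : Function.Injective σ')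
    (h : ∀ w ∈ J.erase u, bd (ctr u v A) σ' w = 1) :
    ∃ σ : V → ℤ, Function.Injective σ ∧ ∀ w ∈ J, bd A σ w = 1 := by
  have hne : u ≠ v := by
    rintro rfl
    exact huv (hA.diag u)
  have huv1 : A u v = 1 := by
    generalize A u v = z at huv
    revert z
    decide
  obtain ⟨α, hα⟩ : ∃ α : ZMod 2, α = ∑ x ∈ (univ.erase u).erase v,
    if σ' x < σ' v then A u x else 0 := ⟨_, rfl⟩
  obtain ⟨β, hβ⟩ : ∃ β : ZMod 2, β = ∑ x ∈ (univ.erase u).erase v,
    if σ' x < σ' v then A v x else 0 := ⟨_, rfl⟩
  have hrest : ∀ x, x ∈ (univ.erase u).erase v ↔ x ≠ v ∧ x ≠ u := by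
    intro x
    simp [mem_erase]
  -- the new order, for both signs
  have key : ∀ ε : ℤ, (ε = 1 ∨ ε = -1) → ∃ σ : V → ℤ, Function.Injective σ ∧
      (∀ w, w ≠ u → w ≠ v → bd A σ w = bd (ctr u v A) σ' w) ∧
      bd A σ u = (if ε = 1 then 1 else 0) + α ∧ bd A σ v = (if ε = 1 then 0 else 1) + β := by
    intro ε hε
    obtain ⟨σ, hσ⟩ : ∃ σ : V → ℤ, σ = fun x => if x = u then 2 * σ' v + ε else 2 * σ' x :=
      ⟨_, rfl⟩
    have hσu : σ u = 2 * σ' v + ε := by rw [hσ]; exact if_pos rfl
    have hσx : ∀ x, x ≠ u → σ x = 2 * σ' x := by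
      intro x hx
      rw [hσ]
      exact if_neg hx
    refine ⟨σ, ?_, ?_, ?_, ?_⟩
    · intro x y hxy
      by_cases hx : x = u
      · by_cases hy : y = u
        · rw [hx, hy]
        · rw [hx, hσu, hσx y hy] at hxy
          exfalso
          omega
      · by_cases hy : y = u
        · rw [hy, hσu, hσx x hx] at hxy
          exfalso
          omega
        · rw [hσx x hx, hσx y hy] at hxy
          exact hσ' (by omega)
    · intro w hwu hwv
      unfold bd
      rw [sum_split hne, sum_split hne (fun x => if σ' x < σ' w then ctr u v A w x else 0)]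
      have hvw : σ' v ≠ σ' w := fun h1 => hwv (hσ' h1).symm
      have c1 : ctr u v A w u = 0 := by
        unfold ctr
        rw [if_pos (Or.inr (Or.inl rfl))]
      have c2 : ctr u v A w v = A w v + A w u := by
        unfold ctr
        rw [if_neg (by
          rintro (h1 | h1 | h1)
          · exact hwu h1
          · exact hne h1.symm
          · exact hwv h1), if_neg hwv, if_pos rfl]
      have c3 : ∑ x ∈ (univ.erase u).erase v, (if σ x < σ w then A w x else 0) =
          ∑ x ∈ (univ.erase u).erase v, (if σ' x < σ' w then ctr u v A w x else 0) := by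
        refine sum_congr rfl fun x hx => ?_
        rw [hrest] at hx
        rw [hσx x hx.2, hσx w hwu]
        by_cases h1 : σ' x < σ' w
        · rw [if_pos (by omega), if_pos h1]
          unfold ctr
          by_cases h2 : w = x
          · rw [if_pos (Or.inr (Or.inr h2)), h2, hA.diag]
          · rw [if_neg (by tauto), if_neg hwv, if_neg hx.1]
        · rw [if_neg (by omega), if_neg h1]
      simp only [c1, c2, c3, ite_self, zero_add]
      rw [hσu, hσx v hne.symm, hσx w hwu]
      by_cases h1 : σ' v < σ' w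
      · rw [if_pos (by omega), if_pos (by omega), if_pos h1]
        ring
      · rw [if_neg (by omega), if_neg (by omega), if_neg h1]
        ring
    · unfold bd
      rw [sum_split hne, hA.diag, ite_self, zero_add, huv1, hσu, hσx v hne.symm]
      congr 1
      · rcases hε with rfl | rfl
        · rw [if_pos (by omega), if_pos rfl]
        · rw [if_neg (by omega), if_neg (by omega)]
      · rw [hα]
        refine sum_congr rfl fun x hx => ?_
        rw [hrest] at hx
        rw [hσx x hx.2]
        have hvw : σ' x ≠ σ' v := fun h1 => hx.1 (hσ' h1)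
        by_cases h1 : σ' x < σ' v
        · rw [if_pos (by omega), if_pos h1]
        · rw [if_neg (by omega), if_neg h1]
    · unfold bd
      rw [sum_split hne, hA.diag, ite_self, zero_add, hA.symm v u, huv1, hσu, hσx v hne.symm]
      congr 1
      · rcases hε with rfl | rfl
        · rw [if_neg (by omega), if_pos rfl]
        · rw [if_pos (by omega), if_neg (by omega)]
      · rw [hβ]
        refine sum_congr rfl fun x hx => ?_
        rw [hrest] at hx
        rw [hσx x hx.2]
        by_cases h1 : σ' x < σ' v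
        · rw [if_pos (by omega), if_pos h1]
        · rw [if_neg (by omega), if_neg h1]
  have hv : v ∈ J → α + β = 1 := by
    intro hvJ
    rw [← h v (mem_erase.2 ⟨hne.symm, hvJ⟩)]
    unfold bd
    rw [sum_split hne]
    have c1 : ctr u v A v u = 0 := by
      unfold ctr
      rw [if_pos (Or.inr (Or.inl rfl))]
    have c2 : ctr u v A v v = 0 := by
      unfold ctr
      rw [if_pos (Or.inr (Or.inr rfl))]
    rw [c1, c2, ite_self, ite_self, zero_add, zero_add, hα, hβ, ← sum_add_distrib]
    refine sum_congr rfl fun x hx => ?_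
    rw [hrest] at hx
    by_cases h1 : σ' x < σ' v
    · rw [if_pos h1, if_pos h1, if_pos h1]
      unfold ctr
      rw [if_neg (by
        rintro (h2 | h2 | h2)
        · exact hne h2.symm
        · exact hx.2 h2
        · exact hx.1 h2.symm), if_pos rfl, add_comm]
    · rw [if_neg h1, if_neg h1, if_neg h1, add_zero]
  have h01 : α = 0 ∨ α = 1 := by
    generalize α = z
    revert z
    decide
  rcases h01 with h0 | h0
  · obtain ⟨σ, hσ, k1, k2, k3⟩ := key 1 (Or.inl rfl)
    refine ⟨σ, hσ, fun w hw => ?_⟩
    by_cases hwu : w = u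
    · rw [hwu, k2, if_pos rfl, h0, add_zero]
    · by_cases hwv : w = v
      · have h2 := hv (hwv ▸ hw)
        rw [h0, zero_add] at h2
        rw [hwv, k3, if_pos rfl, h2, zero_add]
      · rw [k1 w hwu hwv]
        exact h w (mem_erase.2 ⟨hwu, hw⟩)
  · obtain ⟨σ, hσ, k1, k2, k3⟩ := key (-1) (Or.inr rfl)
    refine ⟨σ, hσ, fun w hw => ?_⟩
    by_cases hwu : w = u
    · rw [hwu, k2, if_neg (by omega), h0, zero_add]
    · by_cases hwv : w = v
      · have h2 := hv (hwv ▸ hw)
        rw [h0] at h2
        have h3 : β = 0 := by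
          have h4 : (1 : ZMod 2) + β = 1 + 0 := by rw [h2, add_zero]
          exact add_left_cancel h4
        rw [hwv, k3, if_neg (by omega), h3, add_zero]
      · rw [k1 w hwu hwv]
        exact h w (mem_erase.2 ⟨hwu, hw⟩)

theorem a2 (hI : S_interp) : S_A2 := by
  intro V _ _ A hA J hne
  have key : ∀ n : ℕ, ∀ (A : Gr V) (J : Finset V), IsGr A → J.card = n → PJ A J ≠ 0 →
      ∃ σ : V → ℤ, Function.Injective σ ∧ ∀ v ∈ J, bd A σ v = 1 := by
    intro n
    induction n with
    | zero =>
      intro A J _ hJ _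
      rw [card_eq_zero] at hJ
      refine ⟨fun v => ((Fintype.equivFin V v : ℕ) : ℤ), ?_, ?_⟩
      · intro x y hxy
        have h1 : ((Fintype.equivFin V x : ℕ) : ℤ) = ((Fintype.equivFin V y : ℕ) : ℤ) := hxy
        have h2 : (Fintype.equivFin V x : ℕ) = (Fintype.equivFin V y : ℕ) := by exact_mod_cast h1
        exact (Fintype.equivFin V).injective (Fin.ext h2)
      · intro v hv
        rw [hJ] at hv
        exact absurd hv (notMem_empty v)
    | succ n ih =>
      intro A J hA hJ hne
      obtain ⟨u, hu⟩ : J.Nonempty := by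
        rw [← card_pos]
        omega
      obtain ⟨v, huv, hsg⟩ := exists_good hI hA hu hne
      rw [ctr_edge hA huv hu] at hsg
      obtain ⟨σ', hσ', h⟩ := ih (ctr u v A) (J.erase u) (isGr_ctr hA u v)
        (by rw [card_erase_of_mem hu]; omega) (right_ne_zero_of_mul hsg)
      exact lift_order hA huv hσ' h
  exact key _ A J hA rfl hne

theorem A2 : S_A2 := a2 (p_interp p_dvd)

end Pool.Agent.W155.SD
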