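import Mathlib

/-! Determinants of symmetric matrices in characteristic two. -/

set_option autoImplicit false

namespace Pool.Agent.W155.SD

open Finset

theorem sum_symm {ι F : Type} [Fintype ι] [DecidableEq ι] [CommRing F] (h2 : (2 : F) = 0)
    (f : ι → ι → F) (hf : ∀ i j, f i j = f j i) : ∑ i, ∑ j, f i j = ∑ i, f i i := by
  rw [← Finset.sum_product' univ univ f]
  rw [← Finset.sum_filter_add_sum_filter_not (univ ×ˢ univ) (fun x : ι × ι => x.1 = x.2)]
  have e1 : ∑ x ∈ (univ ×ˢ univ).filter (fun x : ι × ι => ¬ x.1 = x.2), f x.1 x.2 = 0 := by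
    refine Finset.sum_involution (fun x _ => (x.2, x.1)) ?_ ?_ ?_ ?_
    · intro x _
      rw [hf x.2 x.1, ← two_mul, h2, zero_mul]
    · intro x hx _ h
      rw [mem_filter] at hx
      exact hx.2 (congrArg Prod.snd h)
    · intro x hx
      rw [mem_filter] at hx ⊢
      exact ⟨mem_product.2 ⟨mem_univ _, mem_univ _⟩, fun h => hx.2 h.symm⟩
    · intro x _
      rfl
  rw [e1, add_zero]
  refine Finset.sum_bij (fun x _ => x.1) (fun _ _ => mem_univ _) ?_ ?_ ?_
  · intro x hx y hy h
    rw [mem_filter] at hx hy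
    exact Prod.ext h (by rw [← hx.2, ← hy.2]; exact h)
  · intro i _
    exact ⟨(i, i), mem_filter.2 ⟨mem_product.2 ⟨mem_univ _, mem_univ _⟩, rfl⟩, rfl⟩
  · intro x hx
    rw [mem_filter] at hx
    rw [← hx.2]

theorem det_symm_fin {F : Type} [CommRing F] (h2 : (2 : F) = 0) {n : ℕ}
    (S : Matrix (Fin (n + 2)) (Fin (n + 2)) F) (hS : ∀ i j, S i j = S j i) :
    S.det = S 0 0 * (S.submatrix Fin.succ Fin.succ).det +
      ∑ k : Fin (n + 1), S 0 k.succ ^ 2 *
        ((S.submatrix Fin.succ Fin.succ).submatrix k.succAbove k.succAbove).det := by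
  have hneg : (-1 : F) = 1 := by
    have h3 : (1 : F) + 1 = 0 := by
      rw [one_add_one_eq_two]
      exact h2
    exact neg_eq_of_add_eq_zero_left h3
  rw [Matrix.det_succ_row_zero, Fin.sum_univ_succ]
  simp only [hneg, one_pow, one_mul]
  congr 1
  have e1 : ∀ k : Fin (n + 1), (S.submatrix Fin.succ k.succ.succAbove).det =
      ∑ i : Fin (n + 1), S i.succ 0 *
        ((S.submatrix Fin.succ Fin.succ).submatrix i.succAbove k.succAbove).det := by
    intro k
    rw [Matrix.det_succ_column_zero]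
    simp only [hneg, one_pow, one_mul]
    refine sum_congr rfl fun i _ => ?_
    congr 1
    rw [Matrix.submatrix_submatrix, Matrix.submatrix_submatrix]
    congr 1
    ext a b
    simp [Matrix.submatrix_apply]
  simp only [e1, mul_sum]
  refine (sum_symm h2 (fun k i : Fin (n + 1) => S 0 k.succ * (S i.succ 0 *
    ((S.submatrix Fin.succ Fin.succ).submatrix i.succAbove k.succAbove).det)) ?_).trans ?_
  rotate_left
  · refine sum_congr rfl fun k _ => ?_
    rw [hS k.succ 0]
    ring
  · intro k i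
    have e2 : ((S.submatrix Fin.succ Fin.succ).submatrix i.succAbove k.succAbove).det =
        ((S.submatrix Fin.succ Fin.succ).submatrix k.succAbove i.succAbove).det := by
      rw [← Matrix.det_transpose]
      congr 1
      ext a b
      simp only [Matrix.transpose_apply, Matrix.submatrix_apply]
      exact hS _ _
    rw [e2, hS i.succ 0, hS k.succ 0]
    ring

/-- principal minors -/
noncomputable def pm {V F : Type} [CommRing F] [DecidableEq V] (L : Matrix V V F)
    (J : Finset V) : F :=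
  (L.submatrix (Subtype.val : J → V) (Subtype.val : J → V)).det

theorem pm_eq {V F : Type} [CommRing F] [DecidableEq V] (L : Matrix V V F)
    {J : Finset V} {n : ℕ} (f : Fin n → V) (hf : Function.Injective f)
    (hJ : ∀ v, v ∈ J ↔ ∃ i, f i = v) : pm L J = (L.submatrix f f).det := by
  obtain ⟨g, hg⟩ : ∃ g : Fin n → J, ∀ i, (g i : V) = f i :=
    ⟨fun i => ⟨f i, (hJ _).2 ⟨i, rfl⟩⟩, fun _ => rfl⟩
  have hb : Function.Bijective g := by
    constructor
    · intro i j hij
      apply hf
      rw [← hg i, ← hg j, hij]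
    · rintro ⟨v, hv⟩
      obtain ⟨i, hi⟩ := (hJ v).1 hv
      exact ⟨i, Subtype.ext (by rw [hg, hi])⟩
  have e1 : L.submatrix f f =
      (L.submatrix (Subtype.val : J → V) (Subtype.val : J → V)).submatrix
        (Equiv.ofBijective g hb) (Equiv.ofBijective g hb) := by
    ext i j
    simp only [Matrix.submatrix_apply, Equiv.ofBijective_apply, hg]
  rw [e1, Matrix.det_submatrix_equiv_self]
  rfl

theorem pm_empty {V F : Type} [CommRing F] [DecidableEq V] (L : Matrix V V F) :
    pm L ∅ = 1 := by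
  rw [pm_eq L (J := ∅) (n := 0) (fun i => i.elim0) (fun i => i.elim0)
    (fun v => ⟨fun h => absurd h (notMem_empty v), fun ⟨i, _⟩ => i.elim0⟩)]
  exact Matrix.det_fin_zero

theorem pm_insert {V F : Type} [CommRing F] [DecidableEq V] (h2 : (2 : F) = 0)
    (L : Matrix V V F) (hL : ∀ i j, L i j = L j i) {K : Finset V} {v : V} (hv : v ∉ K) :
    pm L (insert v K) = L v v * pm L K + ∑ u ∈ K, L v u ^ 2 * pm L (K.erase u) := by
  obtain ⟨n, hn⟩ : ∃ n, K.card = n := ⟨_, rfl⟩
  let e : Fin n ≃ K := (K.equivFinOfCardEq hn).symm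
  obtain ⟨f, hf⟩ : ∃ f : Fin n → V, ∀ i, f i = (e i : V) := ⟨fun i => (e i : V), fun _ => rfl⟩
  have hfi : Function.Injective f := by
    intro i j hij
    rw [hf, hf] at hij
    exact e.injective (Subtype.ext hij)
  have hfK : ∀ u, u ∈ K ↔ ∃ i, f i = u := by
    intro u
    constructor
    · intro hu
      exact ⟨e.symm ⟨u, hu⟩, by rw [hf, Equiv.apply_symm_apply]⟩
    · rintro ⟨i, rfl⟩
      rw [hf]
      exact (e i).2
  have hsum : ∀ g : V → F, ∑ u ∈ K, g u = ∑ i : Fin n, g (f i) := by
    intro g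
    symm
    refine Finset.sum_bij (fun i _ => f i) ?_ ?_ ?_ (fun _ _ => rfl)
    · intro i _
      exact (hfK _).2 ⟨i, rfl⟩
    · intro i _ j _ h
      exact hfi h
    · intro u hu
      obtain ⟨i, hi⟩ := (hfK u).1 hu
      exact ⟨i, mem_univ _, hi⟩
  obtain ⟨f', hf'⟩ : ∃ f' : Fin (n + 1) → V, f' = Fin.cons v f := ⟨_, rfl⟩
  have hf'0 : f' 0 = v := by rw [hf']; rfl
  have hf's : ∀ i : Fin n, f' i.succ = f i := by
    intro i
    rw [hf']
    rfl
  have hf'i : Function.Injective f' := by
    rw [hf', Fin.cons_injective_iff]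
    refine ⟨?_, hfi⟩
    rintro ⟨i, hi⟩
    exact hv ((hfK v).2 ⟨i, hi⟩)
  have hf'K : ∀ u, u ∈ insert v K ↔ ∃ i, f' i = u := by
    intro u
    rw [mem_insert, hfK]
    constructor
    · rintro (rfl | ⟨i, rfl⟩)
      · exact ⟨0, hf'0⟩
      · exact ⟨i.succ, hf's i⟩
    · rintro ⟨i, rfl⟩
      refine Fin.cases ?_ (fun j => ?_) i
      · exact Or.inl hf'0
      · exact Or.inr ⟨j, (hf's j).symm⟩
  rw [pm_eq L f' hf'i hf'K, pm_eq L f hfi hfK, hsum]
  have hsub : ∀ M : Matrix (Fin (n + 1)) (Fin (n + 1)) F, M = L.submatrix f' f' →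
      M.submatrix Fin.succ Fin.succ = L.submatrix f f := by
    rintro M rfl
    ext i j
    simp only [Matrix.submatrix_apply, hf's]
  cases n with
  | zero =>
    rw [Matrix.det_fin_zero, mul_one, Fin.sum_univ_zero, add_zero, Matrix.det_fin_one,
      Matrix.submatrix_apply, hf'0]
  | succ m =>
    rw [det_symm_fin h2 (L.submatrix f' f') (fun i j => hL _ _), hsub _ rfl, Matrix.submatrix_apply, hf'0]
    congr 1
    refine sum_congr rfl fun k _ => ?_
    rw [Matrix.submatrix_apply, hf'0, hf's]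
    congr 1
    rw [pm_eq L (J := K.erase (f k)) (f ∘ k.succAbove)
      (hfi.comp Fin.succAbove_right_injective) ?_]
    · rfl
    · intro u
      rw [mem_erase, hfK]
      constructor
      · rintro ⟨h1, i, rfl⟩
        have h3 : i ≠ k := fun h => h1 (by rw [h])
        obtain ⟨j, hj⟩ := Fin.exists_succAbove_eq h3
        exact ⟨j, by simp only [Function.comp_apply, hj]⟩
      · rintro ⟨j, rfl⟩
        exact ⟨fun h => Fin.succAbove_ne k j (hfi h), _, rfl⟩

end Pool.Agent.W155.SD
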