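import Pool.Agent.W155.SD.Basic
import Pool.Agent.W155.SD.DetSymm
import Pool.Agent.W390.SD.P.dd
import Pool.Agent.W390.SD.P.dlog

/-! Reduction for MP_7f2998_co (helper146): the part (A3). The logarithmic derivative is adapted
from `Pool.Agent.W390.SD.P.dlog` (helper935). -/

set_option autoImplicit false
set_option linter.unusedSectionVars false

namespace Pool.Agent.W155.SD

open Finset MvPolynomial Pool.Agent.W390.SD Pool.Agent.W146.SD Pool.Agent.W390.SD.Aux_dlog

variable {V : Type} [Fintype V] [DecidableEq V]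

theorem der_PP' {A : Gr V} (hA : IsGr A) (v : V) :
    pderiv v (PP A) = ∑ u ∈ nbr A v, Pe A v u := by
  unfold PP
  rw [der_prod]
  have hsub : (nbr A v).image (fun u => s(v, u)) ⊆ edg A := by
    intro e he
    obtain ⟨u, hu, rfl⟩ := mem_image.1 he
    exact (Pool.Agent.W390.SD.Aux_dlog.mem_edg A _).2 ⟨v, u, (mem_filter.1 hu).2, rfl⟩
  rw [← sum_subset hsub, sum_image]
  · refine sum_congr rfl fun u hu => ?_
    have h1 : A v u ≠ 0 := (mem_filter.1 hu).2
    have hne : u ≠ v := by
      rintro rfl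
      exact h1 (hA.diag u)
    rw [Pool.Agent.W390.SD.Aux_dlog.fac_mk, map_add, pderiv_X_self, pderiv_X_of_ne hne, add_zero,
      mul_one]
    rfl
  · intro a _ b _ h
    exact Sym2.congr_right.1 h
  · intro e he hne
    obtain ⟨a, b, hab, rfl⟩ := (Pool.Agent.W390.SD.Aux_dlog.mem_edg A e).1 he
    have h1 : a ≠ v := by
      rintro rfl
      exact hne (mem_image.2 ⟨b, mem_filter.2 ⟨mem_univ _, hab⟩, rfl⟩)
    have h2 : b ≠ v := by
      rintro rfl
      refine hne (mem_image.2 ⟨a, mem_filter.2 ⟨mem_univ _, ?_⟩, Sym2.eq_swap⟩)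
      rw [hA.symm]
      exact hab
    rw [Pool.Agent.W390.SD.Aux_dlog.fac_mk, map_add, pderiv_X_of_ne h1, pderiv_X_of_ne h2,
      add_zero, mul_zero]

theorem Lap_diag (A : Gr V) (v : V) : Lap A v v = ∑ u ∈ nbr A v, (xF v + xF u)⁻¹ := by
  unfold Lap
  rw [if_pos rfl]
  unfold nbr
  rw [sum_filter]
  refine sum_congr rfl fun w _ => ?_
  by_cases h : A v w = 0
  · rw [if_pos h, if_neg (not_not.2 h)]
  · rw [if_neg h, if_pos h]

theorem Lap_off {A : Gr V} {v u : V} (hne : v ≠ u) (h : A v u ≠ 0) :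
    Lap A v u = (xF v + xF u)⁻¹ := by
  unfold Lap
  rw [if_neg hne, if_neg h]

theorem Lap_off0 {A : Gr V} {v u : V} (hne : v ≠ u) (h : A v u = 0) : Lap A v u = 0 := by
  unfold Lap
  rw [if_neg hne, if_pos h]

theorem sum_Lap {A : Gr V} (hA : IsGr A) (v : V) (g : V → F V) (f : F V → F V) (hf : f 0 = 0) :
    ∑ u ∈ univ.erase v, f (Lap A v u) * g u =
      ∑ u ∈ nbr A v, f ((xF v + xF u)⁻¹) * g u := by
  have hsub : nbr A v ⊆ univ.erase v := by
    intro u hu
    rw [mem_erase]
    refine ⟨?_, mem_univ _⟩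
    rintro rfl
    exact (mem_filter.1 hu).2 (hA.diag u)
  rw [← sum_subset hsub]
  · refine sum_congr rfl fun u hu => ?_
    have h1 : A v u ≠ 0 := (mem_filter.1 hu).2
    have hne : v ≠ u := by
      rintro rfl
      exact h1 (hA.diag v)
    rw [Lap_off hne h1]
  · intro u hu hn
    have hne : v ≠ u := (ne_of_mem_erase hu).symm
    have h1 : A v u = 0 := by
      by_contra h
      exact hn (mem_filter.2 ⟨mem_univ _, h⟩)
    rw [Lap_off0 hne h1, hf, zero_mul]

theorem dlog' {A : Gr V} (hA : IsGr A) (K' : Finset V) (v : V) :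
    algebraMap (R V) (F V) (pderiv v (PJ A K')) =
    ∑ u, Lap A v u * algebraMap (R V) (F V)
      (X u * PJ A K' + if u ∈ K' then PJ A (K'.erase u) else 0) := by
  obtain ⟨-, -, h3, -, h5, h6, -⟩ := p_dd V
  have ha : ∀ u, (X u * PJ A K' + if u ∈ K' then PJ A (K'.erase u) else 0) =
      dd K' (X u * PP A) := fun u => (h6 K' u (PP A)).symm
  have hL : pderiv v (PJ A K') = ∑ u ∈ nbr A v, dd K' (Pe A v u) := by
    unfold PJ
    rw [← h3, der_PP' hA v, map_sum]
  have hk : ∀ u ∈ nbr A v, algebraMap (R V) (F V) (dd K' (Pe A v u)) =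
      (xF v + xF u)⁻¹ * (algebraMap (R V) (F V) (dd K' (X v * PP A)) +
        algebraMap (R V) (F V) (dd K' (X u * PP A))) := by
    intro u hu
    have h1 : A v u ≠ 0 := (mem_filter.1 hu).2
    have hne : u ≠ v := by
      rintro rfl
      exact h1 (hA.diag u)
    have e1 : (xx v + xx u) * dd K' (Pe A v u) = dd K' (X v * PP A) + dd K' (X u * PP A) := by
      rw [← h5 K' (xx v + xx u) (Pe A v u) (fun j _ => xx_const u v j), ← map_add, ← add_mul,
        PP_eq A v u h1, xx_add, mul_assoc]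
    have e2 := congrArg (algebraMap (R V) (F V)) e1
    rw [map_mul, map_add, map_add] at e2
    rw [← e2]
    change _ = (xF v + xF u)⁻¹ * ((xF v + xF u) * _)
    rw [inv_mul_cancel_left₀ (xF_ne u v hne)]
  rw [hL, map_sum, sum_congr rfl hk]
  simp_rw [ha]
  set a : V → F V := fun u => algebraMap (R V) (F V) (dd K' (X u * PP A)) with hadef
  change ∑ u ∈ nbr A v, (xF v + xF u)⁻¹ * (a v + a u) = ∑ u, Lap A v u * a u
  rw [← add_sum_erase univ (fun u => Lap A v u * a u) (mem_univ v)]
  have e4 : ∑ u ∈ univ.erase v, Lap A v u * a u = ∑ u ∈ nbr A v, (xF v + xF u)⁻¹ * a u :=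
    sum_Lap hA v a id rfl
  rw [Lap_diag, e4, sum_mul, ← sum_add_distrib]
  exact sum_congr rfl fun u _ => by rw [mul_add]

theorem two_F : (2 : F V) = 0 := by
  have h1 : (2 : R V) = 0 := by
    have h := Pool.Agent.W390.SD.Aux_dlog.two_zero (V := V) (1 : R V)
    rwa [one_add_one_eq_two] at h
  have h2 := congrArg (algebraMap (R V) (F V)) h1
  rwa [map_ofNat, map_zero] at h2

theorem add_sq' (a b : F V) : (a + b) ^ 2 = a ^ 2 + b ^ 2 := by
  have h : (a + b) ^ 2 = a ^ 2 + b ^ 2 + 2 * (a * b) := by ring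
  rw [h, two_F, zero_mul, add_zero]

theorem sum_sq {ι : Type} (s : Finset ι) (f : ι → F V) :
    (∑ i ∈ s, f i) ^ 2 = ∑ i ∈ s, f i ^ 2 := by
  classical
  induction s using Finset.induction_on with
  | empty => simp
  | insert a s ha ih => rw [sum_insert ha, sum_insert ha, add_sq', ih]

/-- `L_{vv} = ∑ x_u L_{vu}^2` -/
theorem Lap_diag_sq {A : Gr V} (hA : IsGr A) (v : V) :
    ∑ u, Lap A v u ^ 2 * xF u = Lap A v v := by
  rw [← add_sum_erase univ (fun u => Lap A v u ^ 2 * xF u) (mem_univ v),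
    sum_Lap hA v xF (fun z => z ^ 2) (zero_pow two_ne_zero)]
  rw [Lap_diag, sum_sq, sum_mul, ← sum_add_distrib]
  refine sum_congr rfl fun u hu => ?_
  have h1 : A v u ≠ 0 := (mem_filter.1 hu).2
  have hne : u ≠ v := by
    rintro rfl
    exact h1 (hA.diag u)
  rw [← mul_add, pow_two, mul_assoc, inv_mul_cancel₀ (xF_ne u v hne), mul_one]

theorem Lap_symm {A : Gr V} (hA : IsGr A) (u v : V) : Lap A u v = Lap A v u := by
  by_cases h : u = v
  · rw [h]
  · by_cases h1 : A u v = 0
    · rw [Lap_off0 h h1, Lap_off0 (Ne.symm h) (by rw [hA.symm]; exact h1)]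
    · rw [Lap_off h h1, Lap_off (Ne.symm h) (by rw [hA.symm]; exact h1), add_comm]

theorem PJ_rec {A : Gr V} (hA : IsGr A) {K' : Finset V} {v : V} (hv : v ∉ K') :
    (algebraMap (R V) (F V) (PJ A (insert v K'))) ^ 2 =
      Lap A v v * (algebraMap (R V) (F V) (PJ A K')) ^ 2 +
        ∑ u ∈ K', Lap A v u ^ 2 * (algebraMap (R V) (F V) (PJ A (K'.erase u))) ^ 2 := by
  obtain ⟨d0, d1, d2, d3, d4, d5, d6⟩ := p_dd V
  have e0 : PJ A (insert v K') = pderiv v (PJ A K') := d1 K' v (PP A) hv
  rw [e0, dlog' hA, sum_sq]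
  have e1 : ∀ u, (Lap A v u * algebraMap (R V) (F V)
      (X u * PJ A K' + if u ∈ K' then PJ A (K'.erase u) else 0)) ^ 2 =
      Lap A v u ^ 2 * xF u * (algebraMap (R V) (F V) (PJ A K')) ^ 2 +
      if u ∈ K' then Lap A v u ^ 2 * (algebraMap (R V) (F V) (PJ A (K'.erase u))) ^ 2 else 0 := by
    intro u
    rw [mul_pow, map_add, map_mul, add_sq', mul_pow, mul_add]
    congr 1
    · have : xF u = (algebraMap (R V) (F V) (X u)) ^ 2 := by
        unfold xF xx
        rw [map_pow]
      rw [this]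
      ring
    · split_ifs
      · rfl
      · rw [map_zero, zero_pow two_ne_zero, mul_zero]
  simp only [e1]
  rw [sum_add_distrib, ← sum_mul, Lap_diag_sq hA v]
  congr 1
  rw [← sum_filter]
  refine sum_congr ?_ fun _ _ => rfl
  ext u
  simp

theorem A3 : S_A3 := by
  intro V _ _ A hA
  have key : ∀ n : ℕ, ∀ J : Finset V, J.card = n →
      (algebraMap (R V) (F V) (PJ A J)) ^ 2 =
        pm (Lap A) J * (algebraMap (R V) (F V) (PP A)) ^ 2 := by
    intro n
    induction n using Nat.strong_induction_on with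
    | _ n ih =>
      intro J hJ
      rcases J.eq_empty_or_nonempty with rfl | ⟨v, hv⟩
      · rw [pm_empty, one_mul]
        congr 2
        exact (p_dd V).1 _
      · obtain ⟨K', hK'⟩ : ∃ K', K' = J.erase v := ⟨_, rfl⟩
        have hvK : v ∉ K' := hK' ▸ notMem_erase v J
        have hJK : J = insert v K' := by rw [hK', insert_erase hv]
        have hc : K'.card + 1 = J.card := by rw [hJK, card_insert_of_notMem hvK]
        rw [hJK, PJ_rec hA hvK, pm_insert two_F (Lap A) (Lap_symm hA) hvK,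
          ih K'.card (by omega) K' rfl, add_mul, sum_mul, mul_assoc]
        congr 1
        refine sum_congr rfl fun u hu => ?_
        have hc2 : (K'.erase u).card < n := by
          have := card_erase_of_mem hu
          omega
        rw [ih _ hc2 (K'.erase u) rfl, mul_assoc]
  intro J
  exact key _ J rfl

end Pool.Agent.W155.SD
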