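import Pool.Agent.W146.SD.Stm

/-! Reduction for MP_7f2998_co (helper146): deletion of a vertex in `PP`, general graphs. -/

set_option autoImplicit false
set_option linter.unusedSectionVars false

namespace Pool.Agent.W155.SD

open Finset MvPolynomial Pool.Agent.W390.SD Pool.Agent.W146.SD

variable {V : Type} [Fintype V] [DecidableEq V]

/-- delete a vertex (it becomes isolated) -/
def del (w : V) (A : Gr V) : Gr V := fun u v => if u = w ∨ v = w then 0 else A u v

theorem isGr_del {A : Gr V} (hA : IsGr A) (w : V) : IsGr (del w A) := by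
  refine ⟨fun u v => ?_, fun v => ?_⟩
  · unfold del
    rw [hA.symm u v]
    simp only [or_comm]
  · unfold del
    rw [hA.diag v, ite_self]

theorem isGr_ctr {A : Gr V} (hA : IsGr A) (w w' : V) : IsGr (ctr w w' A) := by
  refine ⟨fun u v => ?_, fun v => ?_⟩
  · unfold ctr
    by_cases h1 : u = w ∨ v = w ∨ u = v
    · have h2 : v = w ∨ u = w ∨ v = u := by
        rcases h1 with h | h | h
        · exact Or.inr (Or.inl h)
        · exact Or.inl h
        · exact Or.inr (Or.inr h.symm)
      rw [if_pos h1, if_pos h2]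
    · have h2 : ¬ (v = w ∨ u = w ∨ v = u) := by
        intro h
        apply h1
        rcases h with h | h | h
        · exact Or.inr (Or.inl h)
        · exact Or.inl h
        · exact Or.inr (Or.inr h.symm)
      rw [if_neg h1, if_neg h2]
      by_cases h3 : u = w'
      · by_cases h4 : v = w'
        · exact absurd (Or.inr (Or.inr (h3.trans h4.symm))) h1
        · rw [if_pos h3, if_neg h4, if_pos h3, hA.symm w' v, hA.symm w v]
      · by_cases h4 : v = w'
        · rw [if_neg h3, if_pos h4, if_pos h4, hA.symm u w', hA.symm u w]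
        · rw [if_neg h3, if_neg h4, if_neg h4, if_neg h3, hA.symm u v]
  · unfold ctr
    rw [if_pos (Or.inr (Or.inr rfl))]

theorem mem_nbr {A : Gr V} {v u : V} : u ∈ nbr A v ↔ A v u ≠ 0 := by
  simp [nbr]

theorem mem_edg {A : Gr V} (hA : IsGr A) {a b : V} : s(a, b) ∈ edg A ↔ A a b ≠ 0 := by
  unfold edg
  simp only [mem_image, mem_filter, mem_univ, true_and, Prod.exists]
  constructor
  · rintro ⟨c, d, h, h1⟩
    rw [Sym2.eq_iff] at h1
    rcases h1 with ⟨rfl, rfl⟩ | ⟨rfl, rfl⟩
    · exact h
    · rwa [hA.symm]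
  · intro h
    exact ⟨a, b, h, rfl⟩

theorem fac_mk (u v : V) : (fac s(u, v) : R V) = X u + X v := rfl

theorem edg_del {A : Gr V} (hA : IsGr A) (w : V) :
    edg A = (nbr A w).image (fun u => s(w, u)) ∪ edg (del w A) := by
  ext e
  induction e using Sym2.ind with
  | _ a b =>
    rw [mem_union, mem_edg hA, mem_edg (isGr_del hA w), mem_image]
    constructor
    · intro h
      by_cases h1 : a = w
      · left
        exact ⟨b, mem_nbr.2 (h1 ▸ h), by rw [h1]⟩
      · by_cases h2 : b = w
        · left
          refine ⟨a, mem_nbr.2 ?_, ?_⟩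
          · rw [hA.symm, ← h2]
            exact h
          · rw [h2, Sym2.eq_swap]
        · right
          unfold del
          rw [if_neg (by tauto)]
          exact h
    · rintro (⟨u, hu, h1⟩ | h)
      · rw [mem_nbr] at hu
        rw [Sym2.eq_iff] at h1
        rcases h1 with ⟨rfl, rfl⟩ | ⟨rfl, rfl⟩
        · exact hu
        · rwa [hA.symm]
      · unfold del at h
        by_cases h1 : a = w ∨ b = w
        · rw [if_pos h1] at h
          exact absurd rfl h
        · rwa [if_neg h1] at h

/-- all edges at `w` -/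
theorem PP_del {A : Gr V} (hA : IsGr A) (w : V) :
    PP A = (∏ u ∈ nbr A w, (X w + X u)) * PP (del w A) := by
  unfold PP
  rw [edg_del hA w, prod_union]
  · congr 1
    rw [prod_image]
    · rfl
    · intro u _ u' _ h
      have h1 : s(w, u) = s(w, u') := h
      rw [Sym2.eq_iff] at h1
      rcases h1 with ⟨_, h2⟩ | ⟨h2, h3⟩
      · exact h2
      · rw [h3, ← h2]
  · rw [disjoint_left]
    intro e he he'
    rw [mem_image] at he
    obtain ⟨u, _, rfl⟩ := he
    rw [mem_edg (isGr_del hA w)] at he'
    apply he'
    unfold del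
    rw [if_pos (Or.inl rfl)]

/-- polynomials which do not depend on `t_w` -/
def Free (w : V) (p : R V) : Prop := pderiv w p = 0 ∧ ∀ w' : V, sg w w' p = p

theorem Free.mul {w : V} {p q : R V} (hp : Free w p) (hq : Free w q) : Free w (p * q) := by
  refine ⟨?_, fun w' => ?_⟩
  · rw [Derivation.leibniz, hp.1, hq.1, smul_zero, smul_zero, add_zero]
  · rw [map_mul, hp.2, hq.2]

theorem Free.prod {ι : Type} {w : V} {s : Finset ι} {f : ι → R V} (h : ∀ i ∈ s, Free w (f i)) :
    Free w (∏ i ∈ s, f i) := by
  classical
  induction s using Finset.induction_on with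
  | empty =>
    rw [prod_empty]
    exact ⟨by simp, fun w' => map_one _⟩
  | insert a s ha ih =>
    rw [prod_insert ha]
    exact (h a (mem_insert_self a s)).mul (ih fun i hi => h i (mem_insert_of_mem hi))

theorem free_X {w u v : V} (hu : u ≠ w) (hv : v ≠ w) : Free w (X u + X v : R V) := by
  refine ⟨?_, fun w' => ?_⟩
  · rw [map_add, pderiv_X_of_ne hu, pderiv_X_of_ne hv, add_zero]
  · unfold sg
    rw [map_add, rename_X, rename_X, if_neg hu, if_neg hv]

theorem free_PP {A : Gr V} (hA : IsGr A) {w : V} (h : ∀ u, A w u = 0) : Free w (PP A) := by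
  unfold PP
  refine Free.prod fun e he => ?_
  induction e using Sym2.ind with
  | _ a b =>
    rw [mem_edg hA] at he
    rw [fac_mk]
    refine free_X ?_ ?_
    · rintro rfl
      exact he (h b)
    · rintro rfl
      rw [hA.symm] at he
      exact he (h a)

theorem free_PP_del {A : Gr V} (hA : IsGr A) (w : V) : Free w (PP (del w A)) :=
  free_PP (isGr_del hA w) fun u => by
    unfold del
    rw [if_pos (Or.inl rfl)]

theorem zmod_ne {a b : ZMod 2} : a + b ≠ 0 ↔ ¬ (a ≠ 0 ↔ b ≠ 0) := by
  revert a b
  decide

end Pool.Agent.W155.SD
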