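import Pool.Agent.W155.SD.Basic
import Pool.Agent.W390.SD.P.dd
import Pool.Agent.W390.SD.P.ddsg

/-! Reduction for MP_7f2998_co (helper146): contraction of an edge and `PJ`, general graphs. -/

set_option autoImplicit false
set_option linter.unusedSectionVars false

namespace Pool.Agent.W155.SD

open Finset MvPolynomial Pool.Agent.W390.SD Pool.Agent.W146.SD

variable {V : Type} [Fintype V] [DecidableEq V]

theorem sg_X (w w' v : V) : sg w w' (X v : R V) = X (if v = w then w' else v) := by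
  unfold sg
  rw [rename_X]

theorem prod_symm (S T D : Finset V) (hD : ∀ u, u ∈ D ↔ ¬ (u ∈ S ↔ u ∈ T)) (g : V → R V) :
    (∏ u ∈ S, g u) * (∏ u ∈ T, g u) = (∏ u ∈ S ∩ T, g u) ^ 2 * ∏ u ∈ D, g u := by
  have h1 : S = (S ∩ T) ∪ (D ∩ S) := by
    ext u
    simp only [mem_union, mem_inter, hD]
    tauto
  have h2 : T = (S ∩ T) ∪ (D ∩ T) := by
    ext u
    simp only [mem_union, mem_inter, hD]
    tauto
  have h3 : D = (D ∩ S) ∪ (D ∩ T) := by
    ext u
    simp only [mem_union, mem_inter, hD]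
    tauto
  have d1 : Disjoint (S ∩ T) (D ∩ S) := by
    rw [disjoint_left]
    intro u hu hu'
    rw [mem_inter] at hu
    rw [mem_inter, hD] at hu'
    tauto
  have d2 : Disjoint (S ∩ T) (D ∩ T) := by
    rw [disjoint_left]
    intro u hu hu'
    rw [mem_inter] at hu
    rw [mem_inter, hD] at hu'
    tauto
  have d3 : Disjoint (D ∩ S) (D ∩ T) := by
    rw [disjoint_left]
    intro u hu hu'
    rw [mem_inter, hD] at hu hu'
    tauto
  have e1 : ∏ u ∈ S, g u = (∏ u ∈ S ∩ T, g u) * ∏ u ∈ D ∩ S, g u := by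
    conv_lhs => rw [h1]
    exact prod_union d1
  have e2 : ∏ u ∈ T, g u = (∏ u ∈ S ∩ T, g u) * ∏ u ∈ D ∩ T, g u := by
    conv_lhs => rw [h2]
    exact prod_union d2
  have e3 : ∏ u ∈ D, g u = (∏ u ∈ D ∩ S, g u) * ∏ u ∈ D ∩ T, g u := by
    conv_lhs => rw [h3]
    exact prod_union d3
  rw [e1, e2, e3]
  ring

/-- the product of all edges except `w w'` -/
noncomputable def Pm (A : Gr V) (w w' : V) : R V :=
  (∏ u ∈ (nbr A w).erase w', (X w + X u)) * PP (del w A)

theorem PP_eq_Pm {A : Gr V} (hA : IsGr A) {w w' : V} (h : A w w' ≠ 0) :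
    PP A = (X w + X w') * Pm A w w' := by
  rw [PP_del hA w, Pm, ← mul_assoc]
  congr 1
  exact (mul_prod_erase (nbr A w) (fun u => (X w + X u : R V)) (mem_nbr.2 h)).symm

theorem sg_Pm {A : Gr V} (hA : IsGr A) {w w' : V} (hww : w ≠ w') :
    sg w w' (Pm A w w') =
      (∏ u ∈ nbr A w ∩ nbr A w', (X u + X w')) ^ 2 * PP (ctr w w' A) := by
  have hdw : ∀ v, v ∉ nbr A v := by
    intro v hv
    rw [mem_nbr] at hv
    exact hv (hA.diag v)
  have e1 : sg w w' (∏ u ∈ (nbr A w).erase w', (X w + X u : R V)) =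
      ∏ u ∈ (nbr A w).erase w', (X w' + X u) := by
    rw [map_prod]
    refine prod_congr rfl fun u hu => ?_
    rw [map_add, sg_X, sg_X, if_pos rfl, if_neg]
    rintro rfl
    exact hdw u (mem_of_mem_erase hu)
  have e2 : sg w w' (PP (del w A)) = PP (del w A) := (free_PP_del hA w).2 w'
  have e3 : nbr (del w A) w' = (nbr A w').erase w := by
    ext u
    rw [mem_nbr, mem_erase, mem_nbr]
    unfold del
    by_cases h : u = w
    · rw [if_pos (Or.inr h)]
      tauto
    · rw [if_neg (by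
        rintro (h1 | h1)
        · exact hww h1.symm
        · exact h h1)]
      tauto
  have e4 : PP (del w A) = (∏ u ∈ (nbr A w').erase w, (X w' + X u)) * PP (del w' (del w A)) := by
    rw [PP_del (isGr_del hA w) w', e3]
  have e5 : del w' (ctr w w' A) = del w' (del w A) := by
    funext u v
    unfold del ctr
    by_cases h1 : u = w' ∨ v = w'
    · rw [if_pos h1, if_pos h1]
    · rw [if_neg h1, if_neg h1]
      push Not at h1
      by_cases h2 : u = w ∨ v = w
      · rw [if_pos h2, if_pos (by tauto)]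
      · rw [if_neg h2]
        by_cases h3 : u = v
        · rw [if_pos (Or.inr (Or.inr h3)), h3, hA.diag]
        · rw [if_neg (by tauto), if_neg h1.1, if_neg h1.2]
  have e6 : PP (ctr w w' A) =
      (∏ u ∈ nbr (ctr w w' A) w', (X w' + X u)) * PP (del w' (del w A)) := by
    rw [PP_del (isGr_ctr hA w w') w', e5]
  have e7 : ∀ u, u ∈ nbr (ctr w w' A) w' ↔
      ¬ (u ∈ (nbr A w).erase w' ↔ u ∈ (nbr A w').erase w) := by
    intro u
    rw [mem_nbr, mem_erase, mem_erase, mem_nbr, mem_nbr]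
    unfold ctr
    by_cases h1 : u = w
    · subst h1
      rw [if_pos (Or.inr (Or.inl rfl)), hA.diag]
      tauto
    · by_cases h2 : u = w'
      · subst h2
        rw [if_pos (Or.inr (Or.inr rfl)), hA.diag]
        tauto
      · rw [if_neg (by
          rintro (h | h | h)
          · exact hww h.symm
          · exact h1 h
          · exact h2 h.symm), if_pos rfl, zmod_ne]
        tauto
  have e8 : (nbr A w).erase w' ∩ (nbr A w').erase w = nbr A w ∩ nbr A w' := by
    ext u
    simp only [mem_inter, mem_erase]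
    constructor
    · rintro ⟨⟨_, h1⟩, ⟨_, h2⟩⟩
      exact ⟨h1, h2⟩
    · rintro ⟨h1, h2⟩
      refine ⟨⟨?_, h1⟩, ⟨?_, h2⟩⟩
      · rintro rfl
        exact hdw u h2
      · rintro rfl
        exact hdw u h1
  have e9 : ∏ u ∈ nbr A w ∩ nbr A w', (X u + X w' : R V) =
      ∏ u ∈ nbr A w ∩ nbr A w', (X w' + X u) := prod_congr rfl fun u _ => add_comm _ _
  rw [Pm, map_mul, e1, e2, e4, e6, e9, ← mul_assoc, prod_symm _ _ _ e7, e8]
  ring

theorem ctr_edge {A : Gr V} (hA : IsGr A) {J : Finset V} {w w' : V} (h : A w w' ≠ 0)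
    (hw : w ∈ J) : sg w w' (PJ A J) =
      (∏ u ∈ nbr A w ∩ nbr A w', (X u + X w')) ^ 2 * PJ (ctr w w' A) (J.erase w) := by
  have hww : w ≠ w' := by
    rintro rfl
    exact h (hA.diag w)
  obtain ⟨d0, d1, d2, d3, d4, d5, d6⟩ := p_dd V
  obtain ⟨s1, s2, s3⟩ := p_ddsg p_dd V w w' hww
  obtain ⟨q, hq⟩ : ∃ q : R V, q = ∏ u ∈ nbr A w ∩ nbr A w', (X u + X w') := ⟨_, rfl⟩
  rw [← hq]
  have hqc : ∀ v : V, pderiv v (q ^ 2) = 0 := by
    intro v
    rw [pow_two, Derivation.leibniz, smul_eq_mul]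
    exact CharTwo.add_self_eq_zero _
  have hPm := sg_Pm hA hww
  rw [← hq] at hPm
  have hd : pderiv w (PP A) = Pm A w w' + (X w + X w') * pderiv w (Pm A w w') := by
    rw [PP_eq_Pm hA h, Derivation.leibniz, map_add, pderiv_X_self, pderiv_X_of_ne hww.symm,
      add_zero, smul_eq_mul, smul_eq_mul, mul_one, add_comm]
  have hsum : sg w w' (X w + X w' : R V) = 0 := by
    rw [map_add, sg_X, sg_X, if_pos rfl, if_neg hww.symm]
    exact CharTwo.add_self_eq_zero _
  by_cases hw' : w' ∈ J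
  · -- both ends in `J`
    obtain ⟨K, hK⟩ : ∃ K, K = (J.erase w).erase w' := ⟨_, rfl⟩
    have hwK : w ∉ K := fun h1 => notMem_erase w J (mem_of_mem_erase (hK ▸ h1))
    have hw'K : w' ∉ K := fun h1 => notMem_erase w' (J.erase w) (hK ▸ h1)
    have hJ1 : J.erase w = insert w' K := by
      rw [hK, insert_erase]
      exact mem_erase.2 ⟨hww.symm, hw'⟩
    have hJ : J = insert w (insert w' K) := by
      rw [← hJ1, insert_erase hw]
    have hwK' : w ∉ insert w' K := by
      rw [← hJ1]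
      exact notMem_erase w J
    have e1 : PJ A J = dd K (pderiv w' (pderiv w (PP A))) := by
      unfold PJ
      rw [hJ, d1 _ _ _ hwK', d1 _ _ _ hw'K, ← d2, ← d2]
      congr 1
      exact Pool.Agent.W390.SD.Aux_dd.pd_comm _ _ _
    have e2 : sg w w' (pderiv w' (pderiv w (PP A))) = q ^ 2 * pderiv w' (PP (ctr w w' A)) := by
      have e3 : pderiv w' (pderiv w (PP A)) = (pderiv w (Pm A w w') + pderiv w' (Pm A w w')) +
          (X w + X w') * pderiv w' (pderiv w (Pm A w w')) := by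
        rw [hd, map_add, Derivation.leibniz, map_add, pderiv_X_self, pderiv_X_of_ne hww,
          zero_add, smul_eq_mul, smul_eq_mul, mul_one]
        ring
      rw [e3, map_add, map_mul, hsum, zero_mul, add_zero, ← s2, hPm, Derivation.leibniz, hqc,
        smul_zero, add_zero, smul_eq_mul]
    rw [e1, s1 K _ hwK hw'K, e2, d4 K _ _ (fun j _ => hqc j), hJ1]
    congr 1
    unfold PJ
    rw [d1 _ _ _ hw'K, ← d2]
  · obtain ⟨K, hK⟩ : ∃ K, K = J.erase w := ⟨_, rfl⟩
    have hwK : w ∉ K := hK ▸ notMem_erase w J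
    have hw'K : w' ∉ K := fun h1 => hw' (mem_of_mem_erase (hK ▸ h1))
    have hJ : J = insert w K := by rw [hK, insert_erase hw]
    have e1 : PJ A J = dd K (pderiv w (PP A)) := by
      unfold PJ
      rw [hJ, d1 _ _ _ hwK, ← d2]
    have e2 : sg w w' (pderiv w (PP A)) = q ^ 2 * PP (ctr w w' A) := by
      rw [hd, map_add, map_mul, hsum, zero_mul, add_zero, hPm]
    rw [← hK, e1, s1 K _ hwK hw'K, e2, d4 K _ _ (fun j _ => hqc j)]
    rfl

end Pool.Agent.W155.SD
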